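import Pool.Agent.H914R3.CR.Ex

set_option autoImplicit false
open scoped ContDiff Topology
open Filter Set MeasureTheory

namespace Pool.Agent.Results.MP_c8d476_an.NotRegular

open Pool.Agent.H914R3.CR

/-- For every finite `k ≥ 2` there are compact CR submanifolds `M₁, M₂` of `ℂ² × ℂ³ = ℂ⁵`, of
class `C^k`, of the same real dimension `8` (real codimension `2`) and of the same CR dimension
`3`, which satisfy the standing Levi condition, and a continuous CR map `f : M₁ → M₂` which is not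
of Hölder class `C^{k - 1/2 - ε}` for some `0 < ε < 1/2`. -/
theorem result : ∀ k : ℕ, 2 ≤ k →
    ∃ (M₁ M₂ : Set (Fin 2 ⊕ Fin 3 → ℂ)) (f : (Fin 2 ⊕ Fin 3 → ℂ) → (Fin 2 ⊕ Fin 3 → ℂ)),
      IsCRSubmanifold k 2 3 M₁ ∧ IsCRSubmanifold k 2 3 M₂ ∧
      LeviCondition M₁ ∧ LeviCondition M₂ ∧
      IsCompact M₁ ∧ IsCompact M₂ ∧ M₁.Nonempty ∧
      IsCRMap k M₁ M₂ f ∧
      ∃ ε : ℝ, 0 < ε ∧ ε < 1 / 2 ∧ ¬ IsHolderClass (k - 1) (1 / 2 - ε) M₁ f := by
  intro k hk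
  have hk' : (2 : ℕ∞) ≤ (k : ℕ∞) := by exact_mod_cast hk
  have hkr : (2 : ℝ) ≤ k := by exact_mod_cast hk
  obtain ⟨δ, hδ, hK⟩ := exists_KS k hk ((k : ℝ) + 1 / 2) (by linarith)
  have h0 := KS_zero (k : ℕ∞)
  have hcard : Fintype.card (Fin 2 ⊕ Fin 3) - 2 = 3 := by simp
  have hd1 := crdim_model blocks hk' h0
  have hd2 := crdim_model blocks hk' hK
  rw [hcard] at hd1 hd2
  refine ⟨MM fun _ => 0, MM fun ζ : ℂ => δ * ‖1 - ζ‖ ^ ((k : ℝ) + 1 / 2),
    fm (((k : ℝ) + 1 / 2) / 2) (Real.sqrt δ), hd1, hd2, levi_model blocks hk' h0,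
    levi_model blocks hk' hK, compact_model blocks h0, compact_model blocks hK,
    ⟨cv 0, cv_mem 0⟩, ⟨maps_fm hδ hK, fun i => cr_fm hk' h0 _ _ (by linarith) i⟩,
    1 / 8, by norm_num, by norm_num, ?_⟩
  rcases hk.lt_or_eq with h3 | h2
  · exact not_holder_three k h3 _ (Real.sqrt_pos.2 hδ) _
  · subst h2
    have h := not_holder_two (Real.sqrt δ) (Real.sqrt_pos.2 hδ)
    have e1 : (((2 : ℕ) : ℝ) + 1 / 2) / 2 = 5 / 4 := by norm_num
    have e2 : (1 / 2 - 1 / 8 : ℝ) = 3 / 8 := by norm_num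
    rw [e1, e2]
    exact h

end Pool.Agent.Results.MP_c8d476_an.NotRegular
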